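import Pool.Agent.H664.EX.Stm

/-!
Project EX (helper664), job NOEXP2: no exponentials of `v` in the field.
-/

set_option autoImplicit false

namespace Pool.Agent.H251.EX

open Pool.Agent.H664.EX

/-- the field of constants -/
noncomputable def cstF {K : Type} [Field K] [Algebra ℂ K] (D : Derivation ℂ K K) : IntermediateField ℂ K where
  carrier := {c | D c = 0}
  mul_mem' := by
    intro a b ha hb
    have ha' : D a = 0 := ha
    have hb' : D b = 0 := hb
    show D (a * b) = 0
    rw [D.leibniz, ha', hb']; simp
  add_mem' := by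
    intro a b ha hb
    have ha' : D a = 0 := ha
    have hb' : D b = 0 := hb
    show D (a + b) = 0
    rw [map_add, ha', hb', add_zero]
  algebraMap_mem' := fun r => D.map_algebraMap r
  inv_mem' := by
    intro a ha
    have ha' : D a = 0 := ha
    show D a⁻¹ = 0
    rw [D.leibniz_inv, ha', smul_zero]

/-- `D` is linear over the constants -/
noncomputable def derC {K : Type} [Field K] [Algebra ℂ K] (D : Derivation ℂ K K) :
    Derivation (cstF D) K K :=
  Derivation.mk' (R := cstF D)
    { toFun := D
      map_add' := map_add D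
      map_smul' := by
        intro c x
        have hc : D (c : K) = 0 := c.2
        show D ((c : K) * x) = (c : K) * D x
        rw [D.leibniz, hc]; simp } (fun a b => D.leibniz a b)

lemma al_of_le {K : Type} [Field K] [Algebra ℂ K] {L L' : IntermediateField ℂ K} (h : L ≤ L')
    {x : K} (hx : IsAlgebraic L x) : IsAlgebraic L' x := by
  let _ : Algebra L L' := (IntermediateField.inclusion h).toRingHom.toAlgebra
  have : IsScalarTower L L' K := IsScalarTower.of_algebraMap_eq (fun _ => rfl)
  exact hx.tower_top L'

lemma al_mono {K : Type} [Field K] [Algebra ℂ K] {A B : Set K} (h : A ⊆ B) {x : K}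
    (hx : Al A x) : Al B x :=
  al_of_le (IntermediateField.adjoin.mono ℂ A B h) hx

/-- elements which are not constant are transcendental over the constants -/
lemma trans_cst {K : Type} [Field K] [Algebra ℂ K] (D : Derivation ℂ K K) {t : K} (ht : D t ≠ 0) :
    Transcendental (cstF D) t := by
  have : CharZero K := charZero_of_injective_algebraMap (algebraMap ℂ K).injective
  have : CharZero (cstF D) := charZero_of_injective_algebraMap (algebraMap ℂ (cstF D)).injective
  intro hal
  have hint : IsIntegral (cstF D) t := hal.isIntegral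
  have h1 : (derC D) (Polynomial.aeval t (minpoly (cstF D) t)) = 0 := by
    rw [minpoly.aeval, map_zero]
  rw [Derivation.map_aeval] at h1
  have h2 : (derC D) t = D t := rfl
  rw [h2, smul_eq_mul] at h1
  have h3 : Polynomial.aeval t (Polynomial.derivative (minpoly (cstF D) t)) = 0 :=
    (mul_eq_zero.1 h1).resolve_right ht
  exact (minpoly.irreducible hint).separable.aeval_derivative_ne_zero (minpoly.aeval _ _) h3

lemma trans_of_ne {K : Type} [Field K] [Algebra ℂ K] {u : K}
    (hu : ∀ c : ℂ, u ≠ algebraMap ℂ K c) : Transcendental ℂ u := by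
  intro hal
  have hint : IsIntegral ℂ u := hal.isIntegral
  have h1 : (minpoly ℂ u).degree = 1 :=
    IsAlgClosed.degree_eq_one_of_irreducible ℂ (minpoly.irreducible hint)
  obtain ⟨c, hc⟩ := minpoly.mem_range_of_degree_eq_one ℂ u h1
  exact hu c hc.symm

/-- exchange -/
lemma al_exchange {K : Type} [Field K] [Algebra ℂ K] {z t u : K}
    (hzt : AlgebraicIndependent ℂ ![z, t]) (hal : ∀ f : K, Al {z, t} f)
    (D : Derivation ℂ K K) (hu : ∀ c : ℂ, u ≠ algebraMap ℂ K c) (hDu : D u = 0) (hDt : D t ≠ 0) :
    ∀ f : K, Al {u, t} f := by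
  have hr : Set.range ![z, t] = {z, t} := by
    ext x; simp only [Set.mem_range, Fin.exists_fin_two, Matrix.cons_val_zero, Matrix.cons_val_one,
      Set.mem_insert_iff, Set.mem_singleton_iff]; tauto
  have hr' : Set.range ![u, t] = {u, t} := by
    ext x; simp only [Set.mem_range, Fin.exists_fin_two, Matrix.cons_val_zero, Matrix.cons_val_one,
      Set.mem_insert_iff, Set.mem_singleton_iff]; tauto
  -- the pair is algebraically independent
  have h1 : AlgebraicIndependent ℂ ![u] := by
    rw [algebraicIndependent_unique_type_iff]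
    exact trans_of_ne hu
  have h2 : Transcendental (Algebra.adjoin ℂ (Set.range ![u])) t := by
    rw [← IntermediateField.transcendental_adjoin_iff]
    intro h3
    refine trans_cst D hDt (al_of_le ?_ h3)
    rw [IntermediateField.adjoin_le_iff]
    rintro _ ⟨i, rfl⟩
    have : (![u] : Fin 1 → K) i = u := by fin_cases i; rfl
    show D (![u] i) = 0
    rw [this, hDu]
  have h3 := (h1.option_iff_transcendental t).2 h2
  have h4 : AlgebraicIndependent ℂ ![u, t] := by
    have h5 := h3.comp ![some 0, none] (by decide)
    have e : (fun o : Option (Fin 1) => o.elim t ![u]) ∘ ![some 0, none] = ![u, t] := by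
      funext i; fin_cases i <;> rfl
    rwa [e] at h5
  -- the transcendence degree is two
  have hb : IsTranscendenceBasis ℂ ![z, t] := by
    rw [hzt.isTranscendenceBasis_iff_isAlgebraic]
    refine ⟨fun f => ?_⟩
    rw [← IntermediateField.isAlgebraic_adjoin_iff, hr]
    exact hal f
  have htr : Algebra.trdeg ℂ K = 2 := by
    rw [← hb.cardinalMk_eq_trdeg]; simp
  have hb' : IsTranscendenceBasis ℂ ![u, t] :=
    h4.isTranscendenceBasis_of_trdeg_le_of_finite (by rw [htr]; simp)
  intro f
  have h6 := hb'.isAlgebraic_field.isAlgebraic f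
  rw [hr'] at h6
  exact h6

theorem noexp2 (h : S_axK) : S_noexp2 := by
  classical
  intro K _ _ S hfree hD c hc j hj hDc
  have : CharZero K := charZero_of_injective_algebraMap (algebraMap ℂ K).injective
  have hjK : (j : K) ≠ 0 := by exact_mod_cast hj
  have hjv : S.D ((j : K) * S.v) = j * S.D S.v := by
    rw [← zsmul_eq_mul, map_zsmul, zsmul_eq_mul]
  have hDc' : S.D c = c * S.D ((j : K) * S.v) := by rw [hjv, hDc]; ring
  have hs : ∀ f : K, Al (({S.z, S.t} : Finset K) : Set K) f := by
    intro f
    have := S.alg f
    rwa [Finset.coe_insert, Finset.coe_singleton]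
  by_cases hli : ∀ q : Fin 2 → ℚ,
      ∑ i, (q i : K) * S.D ((![S.z, (j : K) * S.v] : Fin 2 → K) i) = 0 → q = 0
  · have h1 := h K {S.z, S.t} S.D 2 2 ![S.z, (j : K) * S.v] ![S.y, c] ![S.z, S.t] hs (by norm_num)
      (by
        intro i; fin_cases i
        · exact S.y0
        · exact hc)
      (by
        intro i; fin_cases i
        · exact S.Dy
        · exact hDc') hli
      (by
        intro f
        refine al_mono ?_ (S.alg f)
        rintro x (rfl | rfl)
        · exact Or.inr ⟨0, rfl⟩
        · exact Or.inr ⟨1, rfl⟩)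
    omega
  · push Not at hli
    obtain ⟨q, hq, hq0⟩ := hli
    rw [Fin.sum_univ_two] at hq
    simp only [Matrix.cons_val_zero, Matrix.cons_val_one] at hq
    rw [hjv] at hq
    set m₁ : ℤ := (q 0).num * (q 1).den with hm₁
    set m₂ : ℤ := (q 1).num * (q 0).den * j with hm₂
    have hm : m₁ ≠ 0 ∨ m₂ ≠ 0 := by
      by_contra hh
      push Not at hh
      apply hq0
      have d0 : ((q 0).den : ℤ) ≠ 0 := by exact_mod_cast (q 0).den_nz
      have d1 : ((q 1).den : ℤ) ≠ 0 := by exact_mod_cast (q 1).den_nz
      have e0 : (q 0).num = 0 := by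
        have := hh.1
        rw [hm₁] at this
        exact (mul_eq_zero.1 this).resolve_right d1
      have e1 : (q 1).num = 0 := by
        have := hh.2
        rw [hm₂] at this
        exact (mul_eq_zero.1 ((mul_eq_zero.1 this).resolve_right hj)).resolve_right d0
      funext i; fin_cases i
      · exact Rat.zero_of_num_zero e0
      · exact Rat.zero_of_num_zero e1
    have hrel : (m₁ : K) * S.D S.z + m₂ * S.D S.v = 0 := by
      have d0 : ((q 0).den : K) ≠ 0 := by exact_mod_cast (q 0).den_nz
      have d1 : ((q 1).den : K) ≠ 0 := by exact_mod_cast (q 1).den_nz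
      have e0 : ((q 0 : ℚ) : K) = (q 0).num / (q 0).den := Rat.cast_def _
      have e1 : ((q 1 : ℚ) : K) = (q 1).num / (q 1).den := Rat.cast_def _
      rw [e0, e1] at hq
      rw [hm₁, hm₂]
      push_cast
      field_simp at hq
      linear_combination hq
    set u : K := (m₁ : K) * S.z + m₂ * S.v with hu
    have hDu : S.D u = 0 := by
      have e1 : S.D ((m₁ : K) * S.z) = m₁ * S.D S.z := by
        rw [← zsmul_eq_mul, map_zsmul, zsmul_eq_mul]
      have e2 : S.D ((m₂ : K) * S.v) = m₂ * S.D S.v := by
        rw [← zsmul_eq_mul, map_zsmul, zsmul_eq_mul]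
      rw [hu, map_add, e1, e2, hrel]
    have hal := al_exchange S.ind S.alg S.D (hfree m₁ m₂ hm) hDu (by rw [S.Dt]; exact one_ne_zero)
    have hal' : ∀ f : K, Al ({c | S.D c = 0} ∪ Set.range (![S.t] : Fin 1 → K)) f := by
      intro f
      refine al_mono ?_ (hal f)
      rintro x (rfl | rfl)
      · exact Or.inl hDu
      · exact Or.inr ⟨0, rfl⟩
    have key : ∀ x y : K, y ≠ 0 → S.D y = y * S.D x → S.D x = 0 := by
      intro x y hy hxy
      by_contra hx
      have h1 := h K {S.z, S.t} S.D 1 1 ![x] ![y] ![S.t] hs (by norm_num)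
        (by intro i; fin_cases i; exact hy) (by intro i; fin_cases i; exact hxy)
        (by
          intro q hq
          rw [Fin.sum_univ_one] at hq
          have h2 := (mul_eq_zero.1 hq).resolve_right hx
          funext i; fin_cases i
          exact_mod_cast h2) hal'
      omega
    refine hD ⟨key S.z S.y S.y0 S.Dy, ?_⟩
    have := key _ c hc hDc'
    rw [hjv] at this
    exact (mul_eq_zero.1 this).resolve_left hjK

end Pool.Agent.H251.EX
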